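import Mathlib
import Pool.Agent.H60.Wolst

namespace Pool.Agent.Results.MP_26251e_nt.Counter

open Pool.Agent.H60.PAry

/-- For the Wolstenholme prime `p = 16843` and `m = n = 1`, the difference `d_m(p^2 n) - d_m(n)` is
divisible by one more power of `p` than the conjectured formula allows. -/
theorem result : ∃ p m n : ℕ, p.Prime ∧ 3 < p ∧ 1 ≤ m ∧ m % p ≠ p - 1 ∧ 1 ≤ n ∧
    (p : ℤ) ^ (padicValNat p n + 2 * padicValNat p m + 3 + 1) ∣
      (S p m ((p - 1) * m) (p ^ 2 * n) : ℤ) - S p m ((p - 1) * m) n := by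
  refine ⟨16843, 1, 1, by norm_num, by norm_num, le_rfl, by norm_num, le_rfl, ?_⟩
  simpa using d_sq 1

end Pool.Agent.Results.MP_26251e_nt.Counter
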